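import Pool.Agent.Q287.HT.TBA
import Pool.Agent.Q208.KN.HM

/-!
# Project HT (helper99), job LTH: the potential of a bracket near its centre
-/

set_option autoImplicit false

namespace Pool.Agent.Q287.HT

open Finset Filter Topology MeasureTheory
open Pool.Agent.Q99.KN Pool.Agent.Q99.HT
open Pool.Agent.W719.BS (LL)
open Pool.Agent.Q99.FAL (hh)
open Pool.Agent.Q208.KN (taylor_re)

theorem St_open : IsOpen St :=
  (isOpen_lt continuous_const Complex.continuous_re).inter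
    (isOpen_lt Complex.continuous_re continuous_const)

theorem real_St {x : ℝ} (h0 : 0 < x) (h1 : x < 1) : (x : ℂ) ∈ St := by
  refine ⟨?_, ?_⟩
  · rw [Complex.ofReal_re]; exact h0
  · rw [Complex.ofReal_re]; exact h1

theorem ct_real (x : ℝ) : ct x = ((Real.pi * (Real.cos (Real.pi * x) / Real.sin (Real.pi * x)) : ℝ) : ℂ) := by
  unfold ct
  push_cast
  rfl

theorem bb_real {x : ℝ} (h0 : 0 < x) (h1 : x < 1) :
    bb x = ((Real.log (2 * Real.sin (Real.pi * x)) : ℝ) : ℂ) := by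
  have hpi := Real.pi_pos
  have h2 : 0 < Real.sin (Real.pi * x) :=
    Real.sin_pos_of_pos_of_lt_pi (by nlinarith) (by nlinarith)
  unfold bb
  rw [Complex.ofReal_log (by positivity)]
  push_cast
  rfl

theorem near_ct {x : ℝ} (h0 : 0 < x) (h1 : x < 1 / 2) {ε : ℝ} (hε : 0 < ε) : ∃ r : ℝ, 0 < r ∧
    ∀ ν ξ : ℂ, ‖ν - 1 / 2‖ < r → ‖ξ - x‖ < r → ‖ct ν‖ ≤ ε ∧
      ‖ct (ν - ξ) - (Real.pi * (Real.sin (Real.pi * x) / Real.cos (Real.pi * x)) : ℝ)‖ ≤ ε ∧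
      ‖ct ξ - (Real.pi * (Real.cos (Real.pi * x) / Real.sin (Real.pi * x)) : ℝ)‖ ≤ ε := by
  have c : ∀ z ∈ St, ContinuousAt ct z := fun z hz => ct_cont.continuousAt (St_open.mem_nhds hz)
  have s1 : (1 / 2 : ℂ) ∈ St := by
    have := real_St (x := 1 / 2) (by norm_num) (by norm_num)
    push_cast at this
    exact this
  have v1 : ct (1 / 2) = 0 := by
    have := ct_real (1 / 2)
    push_cast at this
    rw [this, show (Real.pi * (1 / 2) : ℂ) = Real.pi / 2 by ring, Complex.cos_pi_div_two]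
    simp
  have s2 : (1 / 2 - x : ℂ) ∈ St := by
    have := real_St (x := 1 / 2 - x) (by linarith) (by linarith)
    push_cast at this
    exact this
  have v2 : ct (1 / 2 - x) = ((Real.pi * (Real.sin (Real.pi * x) / Real.cos (Real.pi * x)) : ℝ) : ℂ) := by
    have := ct_real (1 / 2 - x)
    rw [show Real.pi * (1 / 2 - x) = Real.pi / 2 - Real.pi * x by ring, Real.cos_pi_div_two_sub,
      Real.sin_pi_div_two_sub] at this
    rw [← this]
    push_cast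
    rfl
  have s3 : (x : ℂ) ∈ St := real_St h0 (by linarith)
  have v3 := ct_real x
  have t1 : Tendsto (fun p : ℂ × ℂ => ct p.1) (𝓝 (1 / 2, (x : ℂ))) (𝓝 0) := by
    rw [← v1]
    exact (c _ s1).tendsto.comp continuous_fst.continuousAt.tendsto
  have t2 : Tendsto (fun p : ℂ × ℂ => ct (p.1 - p.2) -
      (Real.pi * (Real.sin (Real.pi * x) / Real.cos (Real.pi * x)) : ℝ)) (𝓝 (1 / 2, (x : ℂ))) (𝓝 0) := by
    have h : Tendsto (fun p : ℂ × ℂ => ct (p.1 - p.2)) (𝓝 (1 / 2, (x : ℂ))) (𝓝 (ct (1 / 2 - x))) := by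
      refine (c _ s2).tendsto.comp ?_
      have : Continuous fun p : ℂ × ℂ => p.1 - p.2 := by fun_prop
      exact this.tendsto (1 / 2, (x : ℂ))
    have := h.sub_const (ct (1 / 2 - x))
    rw [sub_self] at this
    rw [v2] at this
    exact this
  have t3 : Tendsto (fun p : ℂ × ℂ => ct p.2 -
      (Real.pi * (Real.cos (Real.pi * x) / Real.sin (Real.pi * x)) : ℝ)) (𝓝 (1 / 2, (x : ℂ))) (𝓝 0) := by
    have h : Tendsto (fun p : ℂ × ℂ => ct p.2) (𝓝 (1 / 2, (x : ℂ))) (𝓝 (ct x)) :=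
      (c _ s3).tendsto.comp continuous_snd.continuousAt.tendsto
    have := h.sub_const (ct x)
    rw [sub_self] at this
    rw [v3] at this
    exact this
  have e : ∀ {f : ℂ × ℂ → ℂ}, Tendsto f (𝓝 (1 / 2, (x : ℂ))) (𝓝 0) →
      ∀ᶠ p in 𝓝 ((1 / 2, (x : ℂ)) : ℂ × ℂ), ‖f p‖ < ε := by
    intro f hf
    have := hf.norm
    rw [norm_zero] at this
    exact this.eventually (gt_mem_nhds hε)
  obtain ⟨r, hr, h⟩ := Metric.eventually_nhds_iff.1 ((e t1).and ((e t2).and (e t3)))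
  refine ⟨r, hr, fun ν ξ h1 h2 => ?_⟩
  have h3 : dist ((ν, ξ) : ℂ × ℂ) (1 / 2, (x : ℂ)) < r := by
    rw [Prod.dist_eq, dist_eq_norm, dist_eq_norm]
    exact max_lt h1 h2
  obtain ⟨a1, a2, a3⟩ := h h3
  exact ⟨a1.le, a2.le, a3.le⟩

/-- the quadratic form with complex arguments -/
theorem form_le {ν ξ : ℂ} {T Q m ε : ℝ} (hm : 0 < m) (hT : m ≤ T) (hQ : m ≤ Q) (hε : 3 * ε = m / 6)
    (e1 : ‖ct ν‖ ≤ ε) (e2 : ‖ct (ν - ξ) - (T : ℝ)‖ ≤ ε) (e3 : ‖ct ξ - (Q : ℝ)‖ ≤ ε) (a b : ℂ) :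
    (Pool.Agent.Q99.HT.hT ν ξ a b a b).re ≤ -(m / 6) * (a.re ^ 2 + b.re ^ 2) +
      (2 * T + Q + m / 6) * (a.im ^ 2 + b.im ^ 2) := by
  obtain ⟨c1, hc1⟩ : ∃ c, c = ct ν := ⟨_, rfl⟩
  obtain ⟨c2, hc2⟩ : ∃ c, c = ct (ν - ξ) - (T : ℝ) := ⟨_, rfl⟩
  obtain ⟨c3, hc3⟩ : ∃ c, c = ct ξ - (Q : ℝ) := ⟨_, rfl⟩
  rw [← hc1] at e1
  rw [← hc2] at e2
  rw [← hc3] at e3
  have h1 : Pool.Agent.Q99.HT.hT ν ξ a b a b = (-(T : ℂ) * (a - b) ^ 2 - (Q : ℂ) * b ^ 2) +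
      (a ^ 2 * (c1 - c2) + 2 * a * b * c2 - b ^ 2 * (c2 + c3)) := by
    unfold Pool.Agent.Q99.HT.hT
    rw [hc1, hc2, hc3]
    ring
  have h2 : (-(T : ℂ) * (a - b) ^ 2 - (Q : ℂ) * b ^ 2).re =
      -T * ((a.re - b.re) ^ 2 - (a.im - b.im) ^ 2) - Q * (b.re ^ 2 - b.im ^ 2) := by
    simp [sq]
  have n1 : ‖a‖ ^ 2 = a.re ^ 2 + a.im ^ 2 := by rw [Complex.sq_norm, Complex.normSq_apply]; ring
  have n2 : ‖b‖ ^ 2 = b.re ^ 2 + b.im ^ 2 := by rw [Complex.sq_norm, Complex.normSq_apply]; ring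
  have hε0 : 0 ≤ ε := (norm_nonneg _).trans e1
  have h3 : (a ^ 2 * (c1 - c2) + 2 * a * b * c2 - b ^ 2 * (c2 + c3)).re ≤
      3 * ε * (‖a‖ ^ 2 + ‖b‖ ^ 2) := by
    refine (Complex.re_le_norm _).trans ?_
    have i1 : ‖a ^ 2 * (c1 - c2)‖ ≤ ‖a‖ ^ 2 * (2 * ε) := by
      rw [norm_mul, norm_pow]
      refine mul_le_mul_of_nonneg_left ?_ (by positivity)
      exact (norm_sub_le _ _).trans (by linarith)
    have i2 : ‖2 * a * b * c2‖ ≤ (‖a‖ ^ 2 + ‖b‖ ^ 2) * ε := by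
      rw [norm_mul, norm_mul, norm_mul, Complex.norm_ofNat]
      have h0 : 0 ≤ 2 * ‖a‖ * ‖b‖ := by positivity
      calc 2 * ‖a‖ * ‖b‖ * ‖c2‖ ≤ 2 * ‖a‖ * ‖b‖ * ε := by gcongr
        _ ≤ _ := by nlinarith [sq_nonneg (‖a‖ - ‖b‖)]
    have i3 : ‖b ^ 2 * (c2 + c3)‖ ≤ ‖b‖ ^ 2 * (2 * ε) := by
      rw [norm_mul, norm_pow]
      refine mul_le_mul_of_nonneg_left ?_ (by positivity)
      exact (norm_add_le _ _).trans (by linarith)
    calc _ ≤ ‖a ^ 2 * (c1 - c2) + 2 * a * b * c2‖ + ‖b ^ 2 * (c2 + c3)‖ := norm_sub_le _ _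
      _ ≤ ‖a ^ 2 * (c1 - c2)‖ + ‖2 * a * b * c2‖ + ‖b ^ 2 * (c2 + c3)‖ := by
          linarith [norm_add_le (a ^ 2 * (c1 - c2)) (2 * a * b * c2)]
      _ ≤ _ := by nlinarith
  rw [h1, Complex.add_re, h2]
  rw [n1, n2, hε] at h3
  have k1 : m * ((a.re - b.re) ^ 2 + b.re ^ 2) ≤ T * (a.re - b.re) ^ 2 + Q * b.re ^ 2 := by
    nlinarith [sq_nonneg (a.re - b.re), sq_nonneg b.re]
  have k2 : m / 3 * (a.re ^ 2 + b.re ^ 2) ≤ m * ((a.re - b.re) ^ 2 + b.re ^ 2) := by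
    nlinarith [sq_nonneg (a.re - 3 / 2 * b.re), sq_nonneg b.re, hm.le]
  have k3 : T * (a.im - b.im) ^ 2 + Q * b.im ^ 2 ≤ (2 * T + Q) * (a.im ^ 2 + b.im ^ 2) := by
    have hT0 : 0 ≤ T := hm.le.trans hT
    have hQ0 : 0 ≤ Q := hm.le.trans hQ
    nlinarith [mul_nonneg hT0 (sq_nonneg (a.im + b.im)), mul_nonneg hQ0 (sq_nonneg a.im)]
  nlinarith

theorem LT_cen (hLC : S_LC) {x : ℝ} (h0 : 0 < x) (h1 : x < 1 / 2) :
    Pool.Agent.Q99.HT.LT (1 / 2) x = (hh x : ℝ) := by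
  obtain ⟨-, l2, l3, -, -⟩ := hLC
  have s1 : (1 / 2 : ℂ) ∈ St := by
    have := real_St (x := 1 / 2) (by norm_num) (by norm_num)
    push_cast at this
    exact this
  have v1 : LC (1 / 2) = 0 := by
    have := l2 (1 / 2) s1
    rw [show (1 - 1 / 2 : ℂ) = 1 / 2 by norm_num] at this
    have h3 : 2 * LC (1 / 2) = 0 := by linear_combination this
    simpa using h3
  have v2 := l3 x h0 (by linarith)
  have v3 := l3 (1 / 2 - x) (by linarith) (by linarith)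
  push_cast at v3
  unfold Pool.Agent.Q99.HT.LT hh
  rw [v1, v2, v3]
  push_cast
  ring

theorem gT_cen {x : ℝ} (h0 : 0 < x) (h1 : x < 1 / 2) (a b : ℂ) :
    (gT (1 / 2) x a b).re = - Real.log (Real.tan (Real.pi * x)) * b.re -
      Real.log (Real.cos (Real.pi * x)) * a.re := by
  have hpi := Real.pi_pos
  have v1 := bb_real (x := 1 / 2) (by norm_num) (by norm_num)
  have v2 := bb_real (x := 1 / 2 - x) (by linarith) (by linarith)
  have v3 := bb_real (x := x) h0 (by linarith)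
  rw [show Real.pi * (1 / 2) = Real.pi / 2 by ring, Real.sin_pi_div_two, mul_one] at v1
  rw [show Real.pi * (1 / 2 - x) = Real.pi / 2 - Real.pi * x by ring, Real.sin_pi_div_two_sub] at v2
  have hs : 0 < Real.sin (Real.pi * x) :=
    Real.sin_pos_of_pos_of_lt_pi (by nlinarith) (by nlinarith)
  have hc : 0 < Real.cos (Real.pi * x) :=
    Real.cos_pos_of_mem_Ioo ⟨by nlinarith, by nlinarith⟩
  rw [Real.log_mul two_ne_zero hc.ne'] at v2
  rw [Real.log_mul two_ne_zero hs.ne'] at v3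
  rw [Real.tan_eq_sin_div_cos, Real.log_div hs.ne' hc.ne']
  have c1 : ((1 / 2 : ℝ) : ℂ) = 1 / 2 := by push_cast; rfl
  have c2 : ((1 / 2 - x : ℝ) : ℂ) = 1 / 2 - x := by push_cast; rfl
  rw [c1] at v1
  rw [c2] at v2
  unfold gT
  rw [v1, v2, v3]
  simp [← Complex.ofReal_sub]
  ring

theorem task_LTH : S_LTH := by
  intro hLC hLTd x hx0 hx1
  have hpi := Real.pi_pos
  have hs : 0 < Real.sin (Real.pi * x) :=
    Real.sin_pos_of_pos_of_lt_pi (by nlinarith) (by nlinarith)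
  have hc : 0 < Real.cos (Real.pi * x) :=
    Real.cos_pos_of_mem_Ioo ⟨by nlinarith, by nlinarith⟩
  obtain ⟨T, hT⟩ : ∃ T, T = Real.pi * (Real.sin (Real.pi * x) / Real.cos (Real.pi * x)) := ⟨_, rfl⟩
  obtain ⟨Q, hQ⟩ : ∃ Q, Q = Real.pi * (Real.cos (Real.pi * x) / Real.sin (Real.pi * x)) := ⟨_, rfl⟩
  have hT0 : 0 < T := by rw [hT]; positivity
  have hQ0 : 0 < Q := by rw [hQ]; positivity
  obtain ⟨m, hm⟩ : ∃ m, m = min T Q := ⟨_, rfl⟩
  have hm0 : 0 < m := by rw [hm]; exact lt_min hT0 hQ0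
  have hmT : m ≤ T := by rw [hm]; exact min_le_left _ _
  have hmQ : m ≤ Q := by rw [hm]; exact min_le_right _ _
  obtain ⟨r, hr, hnear⟩ := near_ct hx0 hx1 (ε := m / 18) (by positivity)
  rw [← hT, ← hQ] at hnear
  obtain ⟨ρ, hρ⟩ : ∃ ρ, ρ = min r (min (x / 8) ((1 / 2 - x) / 8)) := ⟨_, rfl⟩
  have hρ0 : 0 < ρ := by
    rw [hρ]
    exact lt_min hr (lt_min (by linarith) (by linarith))
  have hρr : ρ ≤ r := by rw [hρ]; exact min_le_left _ _
  have hρ1 : 8 * ρ ≤ x := by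
    have : ρ ≤ x / 8 := by rw [hρ]; exact (min_le_right _ _).trans (min_le_left _ _)
    linarith
  have hρ2 : 8 * ρ ≤ 1 / 2 - x := by
    have : ρ ≤ (1 / 2 - x) / 8 := by rw [hρ]; exact (min_le_right _ _).trans (min_le_right _ _)
    linarith
  have hform : ∀ ν ξ : ℂ, ‖ν - 1 / 2‖ < ρ → ‖ξ - x‖ < ρ → ∀ a b : ℂ,
      (Pool.Agent.Q99.HT.hT ν ξ a b a b).re ≤ -(m / 6) * (a.re ^ 2 + b.re ^ 2) +
      (2 * T + Q + m / 6) * (a.im ^ 2 + b.im ^ 2) := by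
    intro ν ξ hν hξ a b
    obtain ⟨e1, e2, e3⟩ := hnear ν ξ (hν.trans_le hρr) (hξ.trans_le hρr)
    exact form_le hm0 hmT hmQ (by ring) e1 e2 e3 a b
  refine ⟨ρ, m / 12, T + Q / 2 + m / 12, hρ0, hρ1, hρ2, by positivity, by linarith, ?_, ?_⟩
  · intro ν ξ hν hξ
    obtain ⟨a, ha⟩ : ∃ a : ℂ, a = ν - 1 / 2 := ⟨_, rfl⟩
    obtain ⟨b, hb⟩ : ∃ b : ℂ, b = ξ - x := ⟨_, rfl⟩
    rw [← ha] at hν
    rw [← hb] at hξ
    have hin : ∀ t ∈ Set.Icc (0:ℝ) 1, ‖(1 / 2 + t * a) - 1 / 2‖ < ρ ∧ ‖((x : ℂ) + t * b) - x‖ < ρ := by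
      intro t ht
      refine ⟨?_, ?_⟩
      · rw [add_sub_cancel_left, norm_mul, Complex.norm_real, Real.norm_eq_abs, abs_of_nonneg ht.1]
        exact (mul_le_of_le_one_left (norm_nonneg _) ht.2).trans_lt hν
      · rw [add_sub_cancel_left, norm_mul, Complex.norm_real, Real.norm_eq_abs, abs_of_nonneg ht.1]
        exact (mul_le_of_le_one_left (norm_nonneg _) ht.2).trans_lt hξ
    have hd : ∀ (G G' : ℂ → ℂ → ℂ) (t : ℝ), HasDerivAt (fun s : ℂ => G ((1 / 2 + t * a) + s * a)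
        ((x + t * b) + s * b)) (G' (1 / 2 + t * a) (x + t * b)) 0 →
        HasDerivAt (fun s : ℝ => (G (1 / 2 + s * a) (x + s * b)).re)
          (G' (1 / 2 + t * a) (x + t * b)).re t := by
      intro G G' t h
      have h3 : HasDerivAt (fun s : ℂ => G (1 / 2 + s * a) (x + s * b)) (G' (1 / 2 + t * a) (x + t * b))
          (t : ℂ) := by
        have h5 : HasDerivAt (fun s : ℂ => G ((1 / 2 + t * a) + s * a)
            ((x + t * b) + s * b)) (G' (1 / 2 + t * a) (x + t * b)) ((t : ℂ) - t) := by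
          rw [sub_self]
          exact h
        have h4 := h5.comp_sub_const (t : ℂ) (t : ℂ)
        have h6 : (fun s : ℂ => G ((1 / 2 + t * a) + (s - t) * a) ((x + t * b) + (s - t) * b)) =
            fun s : ℂ => G (1 / 2 + s * a) (x + s * b) := by
          funext s
          congr 1 <;> ring
        rw [h6] at h4
        exact h4
      exact h3.real_of_complex
    have hSt : ∀ t ∈ Set.Icc (0:ℝ) 1, (1 / 2 + t * a) ∈ St ∧ (x + t * b) ∈ St ∧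
        (1 / 2 + t * a) - (x + t * b) ∈ St := by
      intro t ht
      obtain ⟨i1, i2⟩ := hin t ht
      obtain ⟨m1, m2, m3, -⟩ := args hρ1 hρ2 i1 i2 (N := 1) le_rfl
      have hδ : 0 < 6 * ρ := by linarith
      exact ⟨Rd_St hδ m1, Rd_St hδ m2, Rd_St hδ m3⟩
    have hd1 : ∀ t ∈ Set.Icc (0:ℝ) 1, HasDerivAt (fun s : ℝ =>
        (Pool.Agent.Q99.HT.LT (1 / 2 + s * a) (x + s * b)).re - s * (gT (1 / 2) x a b).re)
        ((fun s : ℝ => (gT (1 / 2 + s * a) (x + s * b) a b).re - (gT (1 / 2) x a b).re) t) t := by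
      intro t ht
      obtain ⟨i1, i2, i3⟩ := hSt t ht
      have h7 := hd Pool.Agent.Q99.HT.LT (fun y z => gT y z a b) t (hLTd hLC _ _ i1 i2 i3 a b a b).1
      have h8 := (hasDerivAt_id t).mul_const (gT (1 / 2) x a b).re
      rw [one_mul] at h8
      exact h7.sub h8
    have hd2 : ∀ t ∈ Set.Icc (0:ℝ) 1, HasDerivAt (fun s : ℝ =>
        (gT (1 / 2 + s * a) (x + s * b) a b).re - (gT (1 / 2) x a b).re)
        ((fun s : ℝ => (Pool.Agent.Q99.HT.hT (1 / 2 + s * a) (x + s * b) a b a b).re) t) t := by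
      intro t ht
      obtain ⟨i1, i2, i3⟩ := hSt t ht
      have h7 := hd (fun y z => gT y z a b) (fun y z => Pool.Agent.Q99.HT.hT y z a b a b) t
        (hLTd hLC _ _ i1 i2 i3 a b a b).2
      exact h7.sub_const _
    have h0 : (fun s : ℝ => (gT (1 / 2 + s * a) (x + s * b) a b).re - (gT (1 / 2) x a b).re) 0 = 0 := by
      simp
    have hB : ∀ t ∈ Set.Icc (0:ℝ) 1,
        (fun s : ℝ => (Pool.Agent.Q99.HT.hT (1 / 2 + s * a) (x + s * b) a b a b).re) t ≤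
        -(m / 6) * (a.re ^ 2 + b.re ^ 2) + (2 * T + Q + m / 6) * (a.im ^ 2 + b.im ^ 2) := by
      intro t ht
      obtain ⟨i1, i2⟩ := hin t ht
      exact hform _ _ i1 i2 a b
    have key := taylor_re hd1 hd2 h0 hB
    simp only [Complex.ofReal_zero, zero_mul, add_zero, Complex.ofReal_one, one_mul, sub_zero] at key
    rw [LT_cen hLC hx0 hx1, Complex.ofReal_re, gT_cen hx0 hx1] at key
    have e1 : (1 / 2 : ℂ) + a = ν := by rw [ha]; ring
    have e1' : (x : ℂ) + b = ξ := by rw [hb]; ring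
    have e2 : a.re = ν.re - 1 / 2 := by rw [ha]; simp
    have e3 : a.im = ν.im := by rw [ha]; simp
    have e4 : b.re = ξ.re - x := by rw [hb]; simp
    have e5 : b.im = ξ.im := by rw [hb]; simp
    rw [e1, e1', e2, e3, e4, e5] at key
    linarith
  · intro ν ξ hν hξ a b
    have := hform ν ξ hν hξ (a : ℂ) (b : ℂ)
    simp only [Complex.ofReal_re, Complex.ofReal_im] at this
    linarith

end Pool.Agent.Q287.HT
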