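import Pool.Agent.Q99.HT.Stm2
import Pool.Agent.Q210.KN.HH

/-!
# Project HT (helper99), job TBA: the asymptotics of a bracket
-/

set_option autoImplicit false

namespace Pool.Agent.Q287.HT

open Finset Filter Topology MeasureTheory
open Pool.Agent.Q99.KN Pool.Agent.Q99.HT
open Pool.Agent.Q210.KN (near_mul norm_exp_sub_one Gm_ne)

/-! ### the strip -/

theorem sin_re (x : ℂ) : (Complex.sin (Real.pi * x)).re =
    Real.sin (Real.pi * x.re) * Real.cosh (Real.pi * x.im) := by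
  have e : (Real.pi * x : ℂ) = ((Real.pi * x.re : ℝ) : ℂ) + ((Real.pi * x.im : ℝ) : ℂ) * Complex.I := by
    apply Complex.ext <;> simp
  rw [e, Complex.sin_add_mul_I]
  simp [← Complex.ofReal_sin, ← Complex.ofReal_cosh, ← Complex.ofReal_cos, ← Complex.ofReal_sinh,
    -Complex.ofReal_mul]

theorem sin_ne {x : ℂ} (hx : x ∈ St) : Complex.sin (Real.pi * x) ≠ 0 := by
  intro h
  have h1 := sin_re x
  rw [h, Complex.zero_re] at h1
  have hpi := Real.pi_pos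
  have h2 : 0 < Real.sin (Real.pi * x.re) :=
    Real.sin_pos_of_pos_of_lt_pi (by nlinarith [hx.1]) (by nlinarith [hx.2])
  have h3 := Real.cosh_pos (Real.pi * x.im)
  have h4 := mul_pos h2 h3
  linarith

theorem ct_cont : ContinuousOn ct St := by
  unfold ct
  refine ContinuousOn.mul continuousOn_const (ContinuousOn.div ?_ ?_ fun x hx => sin_ne hx)
  · exact (by fun_prop : Continuous fun x : ℂ => Complex.cos (Real.pi * x)).continuousOn
  · exact (by fun_prop : Continuous fun x : ℂ => Complex.sin (Real.pi * x)).continuousOn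

/-- the region -/
def Rd (δ : ℝ) : Set ℂ := Set.Icc δ (1 - δ) ×ℂ Set.Icc (-1) 1

theorem mem_Rd {δ : ℝ} {x : ℂ} : x ∈ Rd δ ↔ (δ ≤ x.re ∧ x.re ≤ 1 - δ) ∧ (-1 ≤ x.im ∧ x.im ≤ 1) := by
  unfold Rd
  rw [Complex.mem_reProdIm]
  rfl

theorem Rd_St {δ : ℝ} (hδ : 0 < δ) {x : ℂ} (hx : x ∈ Rd δ) : x ∈ St := by
  obtain ⟨⟨h1, h2⟩, -⟩ := mem_Rd.1 hx
  exact ⟨by linarith, by linarith⟩

theorem Rd_convex (δ : ℝ) : Convex ℝ (Rd δ) := by
  have e : Rd δ = {x : ℂ | δ ≤ x.re} ∩ ({x : ℂ | x.re ≤ 1 - δ} ∩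
      ({x : ℂ | -1 ≤ x.im} ∩ {x : ℂ | x.im ≤ 1})) := by
    ext x
    rw [mem_Rd]
    simp only [Set.mem_ofPred_eq, Set.mem_inter_iff]
    tauto
  rw [e]
  exact (convex_halfSpace_re_ge _).inter ((convex_halfSpace_re_le _).inter
    ((convex_halfSpace_im_ge _).inter (convex_halfSpace_im_le _)))

theorem Rd_compact (δ : ℝ) : IsCompact (Rd δ) := isCompact_Icc.reProdIm isCompact_Icc

theorem ct_bd {δ : ℝ} (hδ : 0 < δ) : ∃ B : ℝ, 0 ≤ B ∧ ∀ x ∈ Rd δ, ‖ct x‖ ≤ B := by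
  obtain ⟨B, hB⟩ := (Rd_compact δ).exists_bound_of_continuousOn
    (ct_cont.mono fun x hx => Rd_St hδ hx)
  exact ⟨max B 0, le_max_right _ _, fun x hx => (hB x hx).trans (le_max_left _ _)⟩

theorem bb_lip {δ B : ℝ} (hδ : 0 < δ) (hB : ∀ x ∈ Rd δ, ‖ct x‖ ≤ B) (hLC : S_LC) {x y : ℂ}
    (hx : x ∈ Rd δ) (hy : y ∈ Rd δ) : ‖bb y - bb x‖ ≤ B * ‖y - x‖ := by
  obtain ⟨-, -, -, l4, -⟩ := hLC
  exact (Rd_convex δ).norm_image_sub_le_of_norm_hasDerivWithin_le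
    (fun z hz => (l4 z (Rd_St hδ hz)).hasDerivWithinAt) (fun z hz => hB z hz) hx hy

theorem LC_tay {δ B : ℝ} (hδ : 0 < δ) (hB0 : 0 ≤ B) (hB : ∀ x ∈ Rd δ, ‖ct x‖ ≤ B) (hLC : S_LC)
    {x y : ℂ} (hx : x ∈ Rd δ) (hy : y ∈ Rd δ) :
    ‖LC y - LC x - bb x * (y - x)‖ ≤ B * ‖y - x‖ ^ 2 := by
  have hlip := fun z (hz : z ∈ Rd δ) => bb_lip hδ hB hLC hx hz
  obtain ⟨l1, -, -, l4, -⟩ := hLC
  have hs : Convex ℝ (Rd δ ∩ Metric.closedBall x ‖y - x‖) := (Rd_convex δ).inter (convex_closedBall _ _)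
  have h := hs.norm_image_sub_le_of_norm_hasDerivWithin_le
    (f := fun z => LC z - bb x * z) (f' := fun z => bb z - bb x) (C := B * ‖y - x‖)
    (fun z hz => by
      have h1 := (l1 z (Rd_St hδ hz.1)).sub ((hasDerivAt_id z).const_mul (bb x))
      rw [mul_one] at h1
      exact h1.hasDerivWithinAt) (fun z hz => by
      refine (hlip z hz.1).trans ?_
      have := hz.2
      rw [mem_closedBall_iff_norm] at this
      exact mul_le_mul_of_nonneg_left this hB0) (x := x) (y := y) ⟨hx, by simp⟩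
      ⟨hy, by simp [dist_eq_norm]⟩
  have e : LC y - bb x * y - (LC x - bb x * x) = LC y - LC x - bb x * (y - x) := by ring
  rw [e] at h
  calc _ ≤ _ := h
    _ = _ := by ring

theorem exp_bb {x : ℂ} (hx : x ∈ St) : Complex.exp (bb x) = 2 * Complex.sin (Real.pi * x) := by
  unfold bb
  rw [Complex.exp_log]
  exact mul_ne_zero two_ne_zero (sin_ne hx)

/-! ### the arguments -/

theorem args {x ρ : ℝ} (h1 : 8 * ρ ≤ x) (h2 : 8 * ρ ≤ 1 / 2 - x) {ν ξ : ℂ}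
    (hν : ‖ν - 1 / 2‖ < ρ) (hξ : ‖ξ - x‖ < ρ) {N : ℕ} (hN : 1 ≤ N) :
    ν ∈ Rd (6 * ρ) ∧ ξ ∈ Rd (6 * ρ) ∧ ν - ξ ∈ Rd (6 * ρ) ∧ ξ + 1 / (2 * N) ∈ Rd (6 * ρ) := by
  have a1 := abs_lt.1 ((Complex.abs_re_le_norm _).trans_lt hν)
  have a2 := abs_lt.1 ((Complex.abs_im_le_norm _).trans_lt hν)
  have a3 := abs_lt.1 ((Complex.abs_re_le_norm _).trans_lt hξ)
  have a4 := abs_lt.1 ((Complex.abs_im_le_norm _).trans_lt hξ)
  have e1 : (ν - 1 / 2 : ℂ).re = ν.re - 1 / 2 := by simp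
  have e2 : (ν - 1 / 2 : ℂ).im = ν.im := by simp
  have e3 : (ξ - x : ℂ).re = ξ.re - x := by simp
  have e4 : (ξ - x : ℂ).im = ξ.im := by simp
  rw [e1] at a1
  rw [e2] at a2
  rw [e3] at a3
  rw [e4] at a4
  have hNr : (1 : ℝ) ≤ N := by exact_mod_cast hN
  have e : (1 / (2 * N) : ℂ) = ((1 / (2 * N) : ℝ) : ℂ) := by push_cast; rfl
  have h0 : (0 : ℝ) ≤ 1 / (2 * N) := by positivity
  have h3 : (1 : ℝ) / (2 * N) ≤ 1 / 2 := by
    rw [div_le_div_iff₀ (by positivity) (by norm_num)]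
    linarith
  refine ⟨mem_Rd.2 ?_, mem_Rd.2 ?_, mem_Rd.2 ?_, mem_Rd.2 ?_⟩
  · exact ⟨⟨by linarith, by linarith⟩, by linarith, by linarith⟩
  · exact ⟨⟨by linarith, by linarith⟩, by linarith, by linarith⟩
  · rw [Complex.sub_re, Complex.sub_im]
    exact ⟨⟨by linarith, by linarith⟩, by linarith, by linarith⟩
  · rw [e, Complex.add_re, Complex.add_im, Complex.ofReal_re, Complex.ofReal_im]
    exact ⟨⟨by linarith, by linarith⟩, by linarith, by linarith⟩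

theorem task_TBA : S_TBA := by
  intro hLC hGAM x hx0 hx1 ρ hρ h8 h8'
  obtain ⟨gd, -, g3, g4⟩ := hGAM hLC
  have hδ : 0 < 6 * ρ := by linarith
  obtain ⟨B, hB0, hB⟩ := ct_bd hδ
  obtain ⟨C1, hC1⟩ := g3 (6 * ρ) hδ
  obtain ⟨C, hC⟩ : ∃ C, C = max C1 0 := ⟨_, rfl⟩
  have hC0 : 0 ≤ C := by rw [hC]; exact le_max_right _ _
  have hl2 := hLC.2.1
  have hfwd : ∀ N : ℕ, 1 ≤ N → ∀ z ∈ Rd (6 * ρ), ‖Gm N z * Complex.exp (-(N * LC z)) - 1‖ ≤ C / N := by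
    intro N hN z hz
    have hNr : (0 : ℝ) < N := by exact_mod_cast hN
    obtain ⟨⟨hz1, hz2⟩, -⟩ := mem_Rd.1 hz
    refine (hC1 N hN z hz1 hz2).trans ?_
    rw [hC]
    exact div_le_div_of_nonneg_right (le_max_left _ _) hNr.le
  -- the inverse
  have hinv : ∀ N : ℕ, 1 ≤ N → ∀ z ∈ Rd (6 * ρ), ‖(Gm N z)⁻¹ * Complex.exp (N * LC z) - 1‖ ≤ C / N := by
    intro N hN z hz
    have hNr : (0 : ℝ) < N := by exact_mod_cast hN
    obtain ⟨⟨hz1, hz2⟩, -⟩ := mem_Rd.1 hz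
    have hzS := Rd_St hδ hz
    have e1 : (Gm N z)⁻¹ = Gm N (1 - z) := inv_eq_of_mul_eq_one_right (g4 N z hzS)
    have e2 : (N * LC z : ℂ) = -(N * LC (1 - z)) := by rw [hl2 z hzS]; ring
    rw [e1, e2]
    refine (hC1 N hN (1 - z) (by rw [Complex.sub_re, Complex.one_re]; linarith)
      (by rw [Complex.sub_re, Complex.one_re]; linarith)).trans ?_
    rw [hC]
    exact div_le_div_of_nonneg_right (le_max_left _ _) hNr.le
  obtain ⟨c2, hc2⟩ : ∃ c : ℝ, c = C + C + C * C := ⟨_, rfl⟩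
  obtain ⟨c3, hc3⟩ : ∃ c : ℝ, c = c2 + C + c2 * C := ⟨_, rfl⟩
  obtain ⟨cw, hcw⟩ : ∃ c : ℝ, c = B / 4 * Real.exp (B / 4) := ⟨_, rfl⟩
  have hc20 : 0 ≤ c2 := by rw [hc2]; positivity
  have hc30 : 0 ≤ c3 := by rw [hc3]; positivity
  have hcw0 : 0 ≤ cw := by rw [hcw]; positivity
  refine ⟨c3 + cw + c3 * cw, fun N hN => ⟨?_, fun ν ξ hν hξ => ?_⟩⟩
  · have hNc : ((√(N : ℝ) : ℝ) : ℂ) ≠ 0 := by
      have : (0 : ℝ) < √(N : ℝ) := Real.sqrt_pos.2 (by exact_mod_cast hN)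
      exact_mod_cast this.ne'
    have hmem : ∀ p ∈ (Metric.ball (1 / 2 : ℂ) ρ) ×ˢ (Metric.ball (x : ℂ) ρ),
        p.1 ∈ St ∧ p.1 - p.2 ∈ St ∧ p.2 + 1 / (2 * N) ∈ St := by
      intro p hp
      have h1 := hp.1
      have h2 := hp.2
      rw [mem_ball_iff_norm] at h1 h2
      obtain ⟨a1, -, a3, a4⟩ := args h8 h8' h1 h2 hN
      exact ⟨Rd_St hδ a1, Rd_St hδ a3, Rd_St hδ a4⟩
    unfold TB
    simp only [div_eq_mul_inv (Gm N _)]
    refine DifferentiableOn.mul ?_ (DifferentiableOn.inv ?_ ?_)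
    · refine DifferentiableOn.comp (g := Gm N) (f := fun p : ℂ × ℂ => p.1) (t := St) (gd N hN) ?_ ?_
      · fun_prop
      · exact fun p hp => (hmem p hp).1
    · refine DifferentiableOn.mul (DifferentiableOn.mul (differentiableOn_const _) ?_) ?_
      · refine DifferentiableOn.comp (g := Gm N) (f := fun p : ℂ × ℂ => p.1 - p.2) (t := St)
          (gd N hN) ?_ ?_
        · fun_prop
        · exact fun p hp => (hmem p hp).2.1
      · refine DifferentiableOn.comp (g := Gm N) (f := fun p : ℂ × ℂ => p.2 + 1 / (2 * N)) (t := St)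
          (gd N hN) ?_ ?_
        · fun_prop
        · exact fun p hp => (hmem p hp).2.2
    · intro p hp
      obtain ⟨-, h2, h3⟩ := hmem p hp
      exact mul_ne_zero (mul_ne_zero hNc (Gm_ne g4 h2)) (Gm_ne g4 h3)
  · have hNr : (1 : ℝ) ≤ N := by exact_mod_cast hN
    have hNc : (N : ℂ) ≠ 0 := by
      have : (N : ℝ) ≠ 0 := by linarith
      exact_mod_cast this
    obtain ⟨m1, m2, m3, m4⟩ := args h8 h8' hν hξ hN
    have n1 := hfwd N hN _ m1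
    have n2 := hinv N hN _ m3
    have n3 := hinv N hN _ m4
    have p1 := near_mul hN hC0 hC0 n1 n2
    rw [← hc2] at p1
    have p2 := near_mul hN hc20 hC0 p1 n3
    rw [← hc3] at p2
    -- the Taylor factor
    obtain ⟨w, hw⟩ : ∃ w, w = bb ξ / 2 - N * (LC (ξ + 1 / (2 * N)) - LC ξ) := ⟨_, rfl⟩
    have hwb : ‖w‖ ≤ B / 4 / N := by
      have ht := LC_tay hδ hB0 hB hLC m2 m4
      rw [add_sub_cancel_left] at ht
      have e1 : w = -(N * (LC (ξ + 1 / (2 * N)) - LC ξ - bb ξ * (1 / (2 * N)))) := by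
        rw [hw]
        field_simp
        ring
      have e2 : ‖(1 / (2 * N) : ℂ)‖ = 1 / (2 * N) := by
        rw [norm_div, norm_mul, norm_one, Complex.norm_ofNat, Complex.norm_natCast]
      rw [e2] at ht
      rw [e1, norm_neg, norm_mul, Complex.norm_natCast]
      calc (N : ℝ) * ‖LC (ξ + 1 / (2 * N)) - LC ξ - bb ξ * (1 / (2 * N))‖ ≤
          (N : ℝ) * (B * (1 / (2 * N)) ^ 2) := by gcongr
        _ = B / 4 / N := by field_simp; norm_num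
    have p4 : ‖Complex.exp w - 1‖ ≤ cw / N := by
      refine norm_exp_sub_one.trans ?_
      have h3 : ‖w‖ ≤ B / 4 := hwb.trans (div_le_self (by positivity) hNr)
      rw [hcw]
      calc ‖w‖ * Real.exp ‖w‖ ≤ B / 4 / N * Real.exp (B / 4) := by gcongr
        _ = _ := by ring
    have p5 := near_mul hN hc30 hcw0 p2 p4
    refine le_of_eq_of_le ?_ p5
    congr 2
    have hexp : Complex.exp w = Complex.exp (bb ξ / 2) * Complex.exp (N * LC ξ) *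
        (Complex.exp (N * LC (ξ + 1 / (2 * N))))⁻¹ := by
      rw [hw, ← Complex.exp_neg, ← Complex.exp_add, ← Complex.exp_add]
      congr 1
      ring
    have hH : Complex.exp (-(N * LT ν ξ)) = Complex.exp (-(N * LC ν)) *
        Complex.exp (N * LC (ν - ξ)) * Complex.exp (N * LC ξ) := by
      unfold Pool.Agent.Q99.HT.LT
      rw [← Complex.exp_add, ← Complex.exp_add]
      congr 1
      ring
    rw [hexp, hH]
    unfold TB
    have hsq : ((√(N : ℝ) : ℝ) : ℂ) ≠ 0 := by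
      have : (0 : ℝ) < √(N : ℝ) := Real.sqrt_pos.2 (by exact_mod_cast hN)
      exact_mod_cast this.ne'
    have g1 := Gm_ne g4 (N := N) (Rd_St hδ m3)
    have g3' := Gm_ne g4 (N := N) (Rd_St hδ m4)
    obtain ⟨G0, hG0⟩ : ∃ G, G = Gm N ν := ⟨_, rfl⟩
    obtain ⟨G1, hG1⟩ : ∃ G, G = Gm N (ν - ξ) := ⟨_, rfl⟩
    obtain ⟨G3, hG3⟩ : ∃ G, G = Gm N (ξ + 1 / (2 * N)) := ⟨_, rfl⟩
    obtain ⟨E0, hE0⟩ : ∃ G, G = Complex.exp (-(N * LC ν)) := ⟨_, rfl⟩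
    obtain ⟨E1, hE1⟩ : ∃ G, G = Complex.exp (N * LC (ν - ξ)) := ⟨_, rfl⟩
    obtain ⟨E2, hE2⟩ : ∃ G, G = Complex.exp (N * LC ξ) := ⟨_, rfl⟩
    obtain ⟨E3, hE3⟩ : ∃ G, G = Complex.exp (N * LC (ξ + 1 / (2 * N))) := ⟨_, rfl⟩
    obtain ⟨E4, hE4⟩ : ∃ G, G = Complex.exp (bb ξ / 2) := ⟨_, rfl⟩
    obtain ⟨Q, hQ⟩ : ∃ G, G = ((√(N : ℝ) : ℝ) : ℂ) := ⟨_, rfl⟩
    have hE3n : E3 ≠ 0 := by rw [hE3]; exact Complex.exp_ne_zero _
    rw [← hG1] at g1
    rw [← hG3] at g3'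
    rw [← hQ] at hsq
    rw [← hG0, ← hG1, ← hG3, ← hE0, ← hE1, ← hE2, ← hE3, ← hE4, ← hQ]
    field_simp

end Pool.Agent.Q287.HT
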